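import Pool.Agent.Run7.h72.TMain

/-!
# Tensor differentials and correspondences of small degree

Let `V` be a smooth projective variety over `ℂ` of dimension `n` and `H 1, ..., H c` linear systems
on `V`. Let `Y` be any variety, of any dimension `w ≥ n`, with a dominant rational map `Y ⇢ V`; no
condition is imposed on this map and on its fibres. Let `Y ⇢ W` be a dominant rational map of finite
degree to any variety `W`. So `Y` is a correspondence between `W` and `V`. Let `d` be the number of
different points of `V` below the points of `Y` over a general point of `W`; it is at most the degree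
of `Y ⇢ W`. Suppose that the linear systems `H i` separate these points one after the other: the
functions of `H 1, ..., H i` define the fields `L_i` over the function field `L` of `W`, `L_c = L(V)`,
and `d i = [L_i : L_{i - 1}]`, so that `d = d 1 ⋯ d c`. (For instance: `c = 1`, `H` defines a birational
map, `d 1 = d`.)

**Theorem.** Let `q, N ≥ 1`. If the bundle `(Ω^q) ^ ⊗ N ⊗ O(- ∑ M i H i)` on `V` has a nonzero section
and `M i ≥ 2 N (d i - 1)` for all `i`, then the bundle `(Ω^q) ^ ⊗ (N d)` on (a smooth projective model of)
`W` has a nonzero section. In particular `H⁰(W, (Ω¹) ^ ⊗ (N d q)) ≠ 0`, so `W` is not rationally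
connected, and Q1 holds for all these varieties `W`.

For `q = n` the hypothesis says that `N K_V - ∑ M i H i` is effective. There is no condition on the
holomorphic forms of `V`: `p_g(V) = 0`, `q(V) = 0` are possible. For `q < n` the variety `V` may be
uniruled. In other words: the tensor differentials of `V` cannot be destroyed by correspondences
of small degree. If a variety `W` has no tensor differentials (Q1 asks if it is rationally connected)
then each multi-valued map from `W` onto `V`, with `d` values, has `M i < 2 N (d i - 1)` for some `i`.

Proof. If `N = 1`, `q = n` one can take the trace of the pull-backs of the sections. In general the trace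
of a product of forms vanishes or is not regular. We take the norm. The norm `A → L`, `A = L(V)`, has a
polarisation `p`, a symmetric `L`-multilinear function of `d` elements of `A` with values in `L`, with
`p(c a_1, ..., c a_d) = Norm(c) p(a_1, ..., a_d)` and `p(a, ..., a) = d! Norm(a)`. Let `T` be the pull-back
to `A` of the section, `t` a general element of the linear system and `F'(t)` the derivative of its
minimal polynomial. Then `p(F'(t)^N T(D_1), ..., F'(t)^N T(D_d))` is a function of `N d q` vector fields on
`W`. It is regular: at a place `Q` of `A` over `P` with ramification index `e` the lift of a vector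
field transversal to `P` has a pole of order `e - 1`, so that `T` has a pole of order at most `N (e - 1)`
(the forms are alternating in the `N` blocks), and the norm of `F'(t)^N` has enough zeros, with the
poles of `t` compensated by `M ≥ 2 N (d - 1)`.
-/

set_option autoImplicit false
set_option linter.overlappingInstances false
set_option maxHeartbeats 4000000
set_option synthInstance.maxHeartbeats 400000

open FF Module Pool.Agent.W602.GT Run7.h72

namespace Pool.Agent.Results.MP_4329d7_ag.Correspondences

/-- `T` is a rational section of `(Ω^q) ^ ⊗ N`, on the varieties with the function field `K`: a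
`K`-multilinear function of `N` blocks of `q` rational vector fields, alternating in each block. It is
required that `g T` is regular on the smooth projective varieties of dimension `n` with the function
field `K`: for each prime divisor `P` the values of `g T` on the vector fields which are regular at
`P` are regular at `P`. -/
def IsSection {K : Type} [Field K] [Algebra ℂ K] (n : ℕ) {q N : ℕ} (g : K)
    (T : MultilinearMap K (fun _ : Fin N × Fin q => Derivation ℂ K K) K) : Prop :=
  (∀ (D : Fin N × Fin q → Derivation ℂ K K) (a : Fin N) (i j : Fin q), i ≠ j →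
    D (a, i) = D (a, j) → T D = 0) ∧
  ∀ P : Place ℂ K, Divisorial n P → ∀ D : Fin N × Fin q → Derivation ℂ K K,
    (∀ s, DerReg P (D s)) → P.Reg (g * T D)

/-- `H⁰ (W, (Ω¹) ^ ⊗ m) = 0` for the smooth projective varieties `W` of dimension `w` with the
function field `L`. -/
def NoTensors (L : Type) [Field L] [Algebra ℂ L] (w m : ℕ) : Prop :=
  ∀ T : MultilinearMap L (fun _ : Fin m => Derivation ℂ L L) L,
    (∀ P : Place ℂ L, Divisorial w P → ∀ D : Fin m → Derivation ℂ L L, (∀ j, DerReg P (D j)) →
      P.Reg (T D)) → T = 0

/-- **Tensor differentials and correspondences.** Let `E` be the function field of the variety `V` of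
dimension `n`, `R ⊇ E` the function field of a variety `Y` which dominates `V`, and `L ⊆ R` the
function field of a variety `W` of dimension `w` such that `R` is finite over `L`. Let `x i` (`i < c`)
be finite families of functions on `V`, each containing `1`, with
`L(x 0, …, x (c - 1)) = L(E)`, let `L_i = L(x 0, …, x (i - 1))` (this is `Lv L x i`), and
`d = [L(E) : L]`. Let `q, N ≥ 1` and let `T` be a nonzero rational section of `(Ω^q) ^ ⊗ N` on `V` such
that all products of `T` with `∏ (x i (f i)) ^ M i` are regular. If `M i ≥ 2 N ([L_{i + 1} : L_i] - 1)` for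
all `i` then `(Ω^q) ^ ⊗ (N d)` has a nonzero regular section on `W`, and so has `(Ω¹) ^ ⊗ (N d q)`. -/
theorem result {n w q N : ℕ} (hq : 1 ≤ q) (hN : 1 ≤ N) (E R L : Type) [Field E] [Field R]
    [Field L] [Algebra ℂ E] [Algebra ℂ R] [Algebra ℂ L] [Algebra E R] [Algebra L R]
    [IsScalarTower ℂ E R] [IsScalarTower ℂ L R] [FiniteDimensional L R]
    [Algebra.EssFiniteType ℂ E] [Algebra.EssFiniteType ℂ L] (hn : Algebra.trdeg ℂ E = n)
    (hw : Algebra.trdeg ℂ L = w) {c : ℕ} {m : Fin c → ℕ} (x : ∀ i, Fin (m i + 1) → E)
    (hx : ∀ i, x i 0 = 1)
    (hgen : Lv L (fun i b => algebraMap E R (x i b)) c =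
      IntermediateField.adjoin L (Set.range (algebraMap E R))) (M : Fin c → ℕ)
    (hM : ∀ i : Fin c, 2 * N * (finrank L (Lv L (fun i b => algebraMap E R (x i b)) (i + 1)) -
      finrank L (Lv L (fun i b => algebraMap E R (x i b)) i)) ≤
      M i * finrank L (Lv L (fun i b => algebraMap E R (x i b)) i))
    (T : MultilinearMap E (fun _ : Fin N × Fin q => Derivation ℂ E E) E) (hT0 : T ≠ 0)
    (hT : ∀ f : ∀ i, Fin (m i + 1), IsSection n (∏ i, x i (f i) ^ M i) T) (d : ℕ)
    (hd : d = finrank L (IntermediateField.adjoin L (Set.range (algebraMap E R)))) :
    (∃ T' : MultilinearMap L (fun _ : Fin (N * d) × Fin q => Derivation ℂ L L) L, T' ≠ 0 ∧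
      IsSection w 1 T') ∧ 1 ≤ N * d * q ∧ ¬ NoTensors L w (N * d * q) := by
  have hd1 : 1 ≤ d := by
    rw [hd]
    exact finrank_pos
  obtain ⟨T', hT'0, hT'a, hT's⟩ := corrT hn hw x hx hgen M (fun i => by
    have h1 := hM i
    have e1 : 2 * N * (finrank L (Lv L (fun i b => algebraMap E R (x i b)) (i + 1)) -
        finrank L (Lv L (fun i b => algebraMap E R (x i b)) i)) =
        2 * (finrank L (Lv L (fun i b => algebraMap E R (x i b)) (i + 1)) -
        finrank L (Lv L (fun i b => algebraMap E R (x i b)) i)) * N := by ring
    rwa [e1] at h1) T hT0 (fun D s s' hne hb hD => by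
      obtain ⟨a, i⟩ := s
      obtain ⟨a', i'⟩ := s'
      dsimp only at hb
      subst hb
      exact (hT fun _ => 0).1 D a i i' (fun h => hne (by rw [h])) hD)
    (fun f P hP D hD => (hT f).2 P hP D hD) (N * d) (by rw [hd, mul_comm])
  refine ⟨⟨T', hT'0, fun D a i j hij hD => hT'a D (a, i) (a, j) (fun h => hij ?_) rfl hD,
    fun P hP D hD => hT's P hP D hD⟩, ?_, fun hno => ?_⟩
  · exact (Prod.mk.inj h).2
  · exact Nat.mul_pos (Nat.mul_pos hN hd1) hq
  · apply hT'0
    have h1 := hno (T'.domDomCongr finProdFinEquiv) fun P hP D hD => by
      have h2 := hT's P hP (fun s => D (finProdFinEquiv s)) fun s => hD _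
      rw [one_mul] at h2
      exact h2
    ext D
    have h3 : T'.domDomCongr finProdFinEquiv (fun s => D (finProdFinEquiv.symm s)) = T' D := by
      change (T' fun s => D (finProdFinEquiv.symm (finProdFinEquiv s))) = T' D
      congr 1
      funext s
      rw [Equiv.symm_apply_apply]
    rw [← h3, h1]
    rfl

end Pool.Agent.Results.MP_4329d7_ag.Correspondences
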