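import Pool.Agent.Run7.h573.GIT.Fin

/-!
# The vanishing of all tensor differentials and products of determinants
-/

set_option autoImplicit false

open FF Pool.Agent.Y174 Pool.Agent.Run7.h573.GIT

namespace Pool.Agent.Results.MP_4329d7_ag.DeterminantalTensors

/-- **Theorem.** Let `K` be the function field of a variety `V` of dimension `n ≥ 1` over a field of
characteristic zero, with multiplicities `0 ≤ δ v ≤ 1` along the prime divisors over `V`. There is a
non-zero orbifold tensor differential of some degree `m ≥ 1` if and only if there are a basis `α` of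
the rational 1-forms, weights `w i` and numbers `c t`, not all zero, for which the product of the
determinants of the members `span {α i : w i ≤ w t}` of the flag, taken `c t` times, and of a
function `a ≠ 0`, is an orbifold tensor. The flag can be chosen stable under all birational
self-maps of `V` which preserve the multiplicities, and if `κ (K_V + Δ) = -∞` it is a proper one. -/
theorem result {k K : Type} [Field k] [CharZero k] [Field K] [Algebra k K]
    (hess : Algebra.EssFiniteType k K) {n : ℕ} (hn : Algebra.trdeg k K = n) (hn1 : 1 ≤ n)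
    (δ : Place k K → ℝ) (h0 : ∀ v, 0 ≤ δ v) (h1 : ∀ v, δ v ≤ 1) :
    (∃ (m : ℕ) (T : MultilinearMap K (fun _ : Fin m => Derivation k K K) K), 1 ≤ m ∧ T ≠ 0 ∧
      OrbTen n δ T) ↔
    ∃ (f : Fin n → Derivation k K K) (α : Fin n → (Derivation k K K →ₗ[K] K)) (w : Fin n → ℝ)
      (c : Fin n → ℕ) (a : K),
      (∀ i j, α i (f j) = if i = j then 1 else 0) ∧ (∀ D, D = ∑ i, α i D • f i) ∧
      c ≠ 0 ∧ a ≠ 0 ∧ OrbTenS n δ (flagTen α w c a) ∧
      (∀ t, BirStable δ (fil f w t)) ∧ (¬ PairKod k K n δ 0 → ∃ i j, w i ≠ w j) := by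
  constructor
  · rintro ⟨m, T, hm, hT0, hT⟩
    by_cases hκ : PairKod k K n δ 0
    · obtain ⟨f, α, w, c, a, h2, h3, h4, h5, h6, h7⟩ := kod_flagTen hess hn hn1 h0 h1 hκ
      exact ⟨f, α, w, c, a, h2, h3, h4, h5, h6, h7, fun h => absurd hκ h⟩
    · obtain ⟨f, α, w, c, a, h2, h3, h4, h5, h6, h7, h8⟩ :=
        level2 hess hn hn1 h0 h1 hκ hm hT hT0
      exact ⟨f, α, w, c, a, h2, h3, h4, h5, h6, h7, fun _ => h8⟩
  · rintro ⟨f, α, w, c, a, h2, -, h4, h5, h6, -, -⟩
    exact flagTen_tensor h2 h4 h5 h6

end Pool.Agent.Results.MP_4329d7_ag.DeterminantalTensors
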