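import Pool.Agent.Run7.h830.CS.Ten

/-!
# Tensor differentials of varieties which carry a map with many preperiodic points

`X` is a complex projective variety of any dimension `w`, given by its function field `K` and the homogeneous
coordinates `x` of its generic point (`coords ℂ x = ⊤`: the ratios of the coordinates generate `K`).
`f = p / q` is a rational map of degree `d` of the projective line over `K`, that is, a family of rational
maps of degree `d` over an open subset of `X`; `prePer d p q` is the set of the preperiodic points of `f` in
`P^1(K)`, that is, of the preperiodic rational sections of the family. `Isotrivial ℂ d p q`: over an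
algebraic closure of `K` the map `f` is conjugate to a map with constant coefficients.

`ModuliFibration d p q E` (`Pool/Agent/Q103/VR/Stm.lean`): the field `E` between `ℂ` and `K`, algebraically
closed in `K`, is the smallest field over whose algebraic closure `f` is defined up to conjugation; `f` is
conjugate over `K` to a map over `E` and its preperiodic points correspond to points of `P^1(E)`. So `E` is
the function field of the base `Y` of a rational fibration `X ⇢ Y`, the moduli fibration of `f`. A rational
vector field `D` on `X` (a derivation of `K`) is tangent to the fibres of `X ⇢ Y` if `D` is zero on `E`.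

A symmetric differential of degree `m` is a symmetric `K`-multilinear function `ω` of `m` rational vector
fields; it is holomorphic if its values on vector fields which are regular at `v` (`DerReg v D`) are regular
at `v`, for all valuations `v` of `K` (`Place ℂ K`), in particular for all prime divisors of all smooth
projective models. `NoTensors ℂ K w m` (`Pool/Agent/TH710/SP/Defs.lean`): there are no nonzero holomorphic
tensor differentials of degree `1, ..., m`. `EntireCurve x f`: a nonconstant holomorphic map from `ℂ` to `X`.

Theorem. For every `d ≥ 2` there is a number `B` such that the following holds for all `X` as above and all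
rational maps `f` of degree `d` over `K` with at least `B` preperiodic points in `P^1(K)`.

(1) For every rational vector field `D` on `X` which is not tangent to the fibres of the moduli fibration
`X ⇢ Y` of `f` there is a holomorphic symmetric differential `ω` on `X` with `ω (D, ..., D) ≠ 0`: the common
kernel of the symmetric differentials of `X` is contained in the tangent spaces of the fibres.

(2) If `f` is not isotrivial then `X` has nonzero holomorphic symmetric differentials of positive degree; so
if `X` has no tensor differentials, as in Q1, then all such `f` are isotrivial.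

(3) If `f` is not isotrivial then `X` is not rationally connected: all the rational curves, and even all the
entire curves, through a general point `a` of `X` are contained in a proper closed subset `{G = 0}` of `X`
(which is the fibre of `X ⇢ Y` through `a`).

So Q1 holds for all smooth projective varieties, of any dimension, which carry a rational map of degree `d`,
not isotrivial, with at least `B` preperiodic points: neither condition is satisfied.

Proof. (1) is the helper theorem `Pool.Agent.Q103.VR.kernel` of the starting files (helper103, helper41 and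
others), which was not handed in: the cross ratios of the preperiodic points give the symmetric
differentials. (2) is a consequence, and (3) is deduced from the hyperbolicity of `Y`
(`Pool.Agent.Q103.EC.main`) in `Pool/Agent/Run7/h830/CS/Ten.lean`.
-/

set_option autoImplicit false

namespace Pool.Agent.Results.MP_4329d7_ag.ManyPreperiodicPoints

open Polynomial FF
open Pool.Agent.W602.GT
open Pool.Agent.Y221.BD (EntireCurve)
open Pool.Agent.Q103.KO (SameP)
open Pool.Agent.Q103.EC (prePer Isotrivial)
open Pool.Agent.Q103.VR (ModuliFibration)
open Pool.Agent.TH710.SP (NoTensors)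

/-- `ω` is a holomorphic symmetric differential of degree `m` on the smooth projective varieties with
function field `K`. -/
structure SymDiff {K : Type} [Field K] [Algebra ℂ K] (m : ℕ)
    (ω : MultilinearMap K (fun _ : Fin m => Derivation ℂ K K) K) : Prop where
  symm : ∀ (σ : Equiv.Perm (Fin m)) (D : Fin m → Derivation ℂ K K), ω (fun i => D (σ i)) = ω D
  reg : ∀ (v : Place ℂ K) (D : Fin m → Derivation ℂ K K), (∀ j, DerReg v (D j)) → v.Reg (ω D)

/-- **Tensor differentials of varieties which carry a map with many preperiodic points.** -/
theorem result (d : ℕ) (hd : 2 ≤ d) :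
    ∃ B : ℕ, ∀ (K : Type) [Field K] [Algebra ℂ K] (w : ℕ), Algebra.trdeg ℂ K = w →
      ∀ p q : K[X], IsCoprime p q → max p.natDegree q.natDegree = d →
      (B : ℕ∞) ≤ (prePer d p q).encard →
      -- (1)
      (∃ E : IntermediateField ℂ K, ModuliFibration d p q E ∧
        ∀ D : Derivation ℂ K K, (∃ y ∈ E, D y ≠ 0) → ∃ m : ℕ, 1 ≤ m ∧
          ∃ ω : MultilinearMap K (fun _ : Fin m => Derivation ℂ K K) K,
            SymDiff m ω ∧ ω (fun _ => D) ≠ 0) ∧
      (¬ Isotrivial ℂ d p q →
        -- (2)
        (∃ m : ℕ, 1 ≤ m ∧ (∃ ω : MultilinearMap K (fun _ : Fin m => Derivation ℂ K K) K,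
          SymDiff m ω ∧ ω ≠ 0) ∧ ¬ NoTensors ℂ K w m) ∧
        -- (3)
        ∀ (M : ℕ) (x : Fin (M + 1) → K), x ≠ 0 → coords ℂ x = ⊤ →
          ∃ R : MvPolynomial (Fin (M + 1)) ℂ, IsForm R ∧ val x R ≠ 0 ∧
            ∀ a : Fin (M + 1) → ℂ, MvPolynomial.eval a R ≠ 0 →
              ∃ G : MvPolynomial (Fin (M + 1)) ℂ, IsForm G ∧ val x G ≠ 0 ∧
                ∀ f, EntireCurve x f → (∃ s, SameP a (fun i => f i s)) →
                  ∀ t, MvPolynomial.eval (fun i => f i t) G = 0) := by
  obtain ⟨B1, hB1⟩ := Pool.Agent.Q103.VR.kernel d hd
  obtain ⟨B2, hB2⟩ := Pool.Agent.Run7.h830.CS.tensors d hd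
  obtain ⟨B3, hB3⟩ := Pool.Agent.Run7.h830.CS.fib d hd
  refine ⟨max B1 (max B2 B3), fun K _ _ w hw p q hco hmax hmany => ?_⟩
  have : CharZero K := charZero_of_injective_algebraMap (algebraMap ℂ K).injective
  have hm1 : (B1 : ℕ∞) ≤ (prePer d p q).encard :=
    le_trans (by exact_mod_cast le_max_left B1 _) hmany
  have hm2 : (B2 : ℕ∞) ≤ (prePer d p q).encard :=
    le_trans (by exact_mod_cast le_trans (le_max_left B2 B3) (le_max_right B1 _)) hmany
  have hm3 : (B3 : ℕ∞) ≤ (prePer d p q).encard :=
    le_trans (by exact_mod_cast le_trans (le_max_right B2 B3) (le_max_right B1 _)) hmany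
  refine ⟨?_, fun hiso => ⟨?_, ?_⟩⟩
  · obtain ⟨E, hE, hD⟩ := hB1 ℂ K p q hco hmax hm1 w hw
    refine ⟨E, hE, fun D hy => ?_⟩
    obtain ⟨m, hm, ω, h1, h2, h3⟩ := hD D hy
    exact ⟨m, hm, ω, ⟨h1, h2⟩, h3⟩
  · obtain ⟨m, hm, ω, h1, h2, h3⟩ := hB2 ℂ K p q hco hmax hm2 w hw hiso
    refine ⟨m, hm, ⟨ω, ⟨h1, h2⟩, h3⟩, fun hN => h3 ?_⟩
    exact hN m hm le_rfl ω fun P _ D hD => h2 P D hD
  · obtain ⟨E, v, hE, hv, htr, -, h1⟩ := hB3 K p q hco hmax hm3 w hw
    have hbot : E ≠ ⊥ := by
      intro h0
      rw [h0] at hE
      exact hiso (Pool.Agent.Run7.h830.CS.isotrivial_of_bot hE)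
    have hv1 : 1 ≤ v := by
      rcases Nat.eq_zero_or_pos v with h0 | h0
      · exact absurd (Pool.Agent.Run7.h830.CS.bot_of_trdeg E (by rw [htr, h0, Nat.cast_zero])) hbot
      · exact h0
    intro M x hx hgen
    have hess : Algebra.EssFiniteType ℂ K := essFinite hgen
    obtain ⟨N, y, hy, hygen⟩ := Pool.Agent.Run7.h830.CS.exists_model (k := ℂ) E
    exact Pool.Agent.Run7.h830.CS.curves_through hx hgen hy hygen hbot
      ((h1 hv1).2 N y hy hygen)

end Pool.Agent.Results.MP_4329d7_ag.ManyPreperiodicPoints
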