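import Pool.Agent.Run7.h260.TW.Fin
import Pool.Agent.R882.CTow

/-!
# Tensor differentials and unirationality for the images of towers over hypersurfaces and over coverings
of complete intersections

A tower of dimension `n` with the bound `s` (`Tower c n Base K s`) is a sequence of dominant rational
maps of finite degree `V = V_0 ⇢ V_1 ⇢ ... ⇢ V_k` between varieties of dimension `n` over `ℂ`. At the step
`V_i ⇢ V_(i + 1)`, of degree `b_i`, the canonical bundle of `V_i` is positive relative to `V_(i + 1)`
(`Positive`): `V_(i + 1)` is the image of `V_i` in a projective space, and for all varieties `Y'`,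
`V_i ⇢ Y' ⇢ V_(i + 1)`, of degree `> 1` over `V_(i + 1)` there is a section of `K_(V_i) - m H` with a
nonzero trace on `Y'`, where `s_i ≤ [V_i : Y'] (m + 1)`; for instance cyclic coverings of prime degree
branched along a sufficiently positive divisor. The bounds are `s_0 = s`, `s_(i + 1) = ⌊s_i / b_i⌋`. The
last variety `V_k`, with the bound `s_k`, is

* a smooth hypersurface of degree `d` in `ℙ^(n + 1)`, where for some `N` one has `d ≥ 7 N + n + 6`,
  `d > (n + 1) N`, `d > c (N + n - 1)` and `s_k < (N + 1) (d - n - N)`; or
* any variety with a generically finite map, of any degree, to a variety in `ℙ^(M + 1)` which is cut out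
  by equations of degree at most `D` and has the regular canonical forms `P(x) ω₀` for all forms `P`
  of degree `m`, for instance a smooth complete intersection of codimension at least two with
  `K = O(m)`; where for some `N` one has `m ≥ 7 N + 4`, `m + M + 2 > (M + 1) N`, `m + 2 ≥ D + N` and
  `s_k < (N + 1) (m + 2 - N)`; or
* any unirational variety, without condition on `s_k`.

Let `V` be the first variety of the tower and `V ⇢ X` any dominant rational map of degree `r`; nothing is
assumed about the map (it need not be a quotient by a group and has no relation to the tower) or about
`X`, which stands for its smooth projective models.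

(1) Let the bound be `s = r` (and `c = 2`). If `X` has no nonzero holomorphic tensor differential of
degree `n = dim X`, that is, `H⁰ (X, (Ω¹) ^ ⊗ n) = 0`, then `X` is unirational, in particular rationally
connected. In fact `p_g(X) = 0` is enough.

(2) Let the bound be `s = 2 r` (and `c = 3`). Then `X` is of general type or unirational.

With the best `N` the bound for the degree `r` is of the order of `b d ^ 2` (`b = b_0 ... b_(k - 1)`) for
towers over hypersurfaces of degree `d`, and of the order of `b m ^ 2` for towers over coverings of
complete intersections. The starting results of this question have towers of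
nondegenerate complete intersections in tori, whose last variety is rational (`ImagesOfTowers`); the
hypersurfaces, the coverings of varieties of low degree, and arbitrary unirational varieties as bases
are new here.

The dichotomy for these towers is a theorem of helper260 (`Pool/Agent/Run7/h260/TW/Fin.lean`), who
handed it in for the abundance conjecture as `MP_5ff3c6_ag.ImagesOfTowers`. Proof: if `p_g(X) = 0` (or `X` is not of general type) then the
traces of the canonical forms to `X` are zero (or do not separate the general points of `X`), and at each step `V_i ⇢ X`
factors through `V_(i + 1)`; at the bottom the theorems on hypersurfaces and on complete intersections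
of quadratic degree (`N162/HN`, `N162/GP`) are used. A canonical
form is a tensor differential of degree `n`.
-/

set_option autoImplicit false
set_option linter.overlappingInstances false

open FF Module Pool.Agent.W602.GT
open Pool.Agent.W619.TW (IsUnirational)
open Pool.Agent.R882.Over (GenusZero)
open Pool.Agent.Run7.h260.TW (Tower)

namespace Pool.Agent.Results.MP_4329d7_ag.TowersOverLowDegree

/-- `H⁰ (X, (Ω¹) ^ ⊗ m) = 0` for the smooth projective varieties `X` of dimension `n` with the
function field `L`: all `L`-multilinear functions of `m` rational vector fields whose values on the
vector fields which are regular at `P` are regular at `P`, for all prime divisors `P`, are zero. -/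
def NoTensors (L : Type) [Field L] [Algebra ℂ L] (n m : ℕ) : Prop :=
  ∀ T : MultilinearMap L (fun _ : Fin m => Derivation ℂ L L) L,
    (∀ P : Place ℂ L, Divisorial n P → ∀ D : Fin m → Derivation ℂ L L, (∀ j, DerReg P (D j)) →
      P.Reg (T D)) → T = 0

/-- **Tensor differentials on the images of towers.** Let `K` be the function field of the first
variety `V` of a tower of dimension `n ≥ 1` over a smooth hypersurface, a covering of a variety of low
degree, or a unirational variety, and let `V ⇢ X` be a dominant rational map of degree `r`, `L` the
function field of `X`. (1) If the bound of the tower is `r` and `X` has no nonzero holomorphic tensor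
differential of degree `n`, or only `p_g(X) = 0`, then `X` is unirational. (2) If the bound is `2 r`
then `X` is of general type or unirational. -/
theorem result {n : ℕ} (hn : 1 ≤ n) {K : Type} [Field K] [Algebra ℂ K] [Algebra.EssFiniteType ℂ K]
    (hK : Algebra.trdeg ℂ K = n) (L : Type) [Field L] [Algebra ℂ L] [Algebra L K]
    [IsScalarTower ℂ L K] [FiniteDimensional L K] :
    (Tower 2 n (fun E _ _ => IsUnirational ℂ E n) K (Module.finrank L K) →
      (NoTensors L n n → IsUnirational ℂ L n) ∧ (GenusZero L n → IsUnirational ℂ L n)) ∧
    (Tower 3 n (fun E _ _ => IsUnirational ℂ E n) K (2 * Module.finrank L K) →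
      GeneralType ℂ L n ∨ IsUnirational ℂ L n) := by
  have hL : Algebra.trdeg ℂ L = (n : ℕ) := Pool.Agent.Y184.NT.trdeg_below (K := K) hK
  refine ⟨fun h => ?_, fun h => ?_⟩
  · have h1 := Pool.Agent.Run7.h260.TW.genus_unirational L hn hK le_rfl le_rfl h
    have h2 : GenusZero L n ↔ IsUnirational ℂ L n := h1.out 0 4
    exact ⟨fun h3 => h2.1 (Pool.Agent.R882.LT.genusZero_of_noTensors hL h3), h2.1⟩
  · have h1 := Pool.Agent.Run7.h260.TW.gt_unirational L hn hK le_rfl le_rfl h
    have h2 : ¬ GeneralType ℂ L n ↔ IsUnirational ℂ L n := h1.out 0 5
    exact or_iff_not_imp_left.2 h2.1

end Pool.Agent.Results.MP_4329d7_ag.TowersOverLowDegree
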